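import Pool.Agent.H50.G.S.H379R2.SW1
/-!
Zeta and principal characters for `Re s > 1`, and the 3-4-1 inequality in quantitative form.
-/

set_option autoImplicit false

open Complex Filter Topology Finset

namespace Pool.Agent.H379R2.SW

lemma integral_step {n : ℕ} (hn : 1 ≤ n) {s : ℂ} (hs : 1 < s.re) :
    ‖((((n : ℝ) + 1 : ℝ) : ℂ) ^ (1 - s) / (1 - s) - ((n : ℝ) : ℂ) ^ (1 - s) / (1 - s)) -
      ((n : ℝ) : ℂ) ^ (-s)‖ ≤ ‖s‖ * (n : ℝ) ^ (-s.re - 1) := by
  have hn' : (0 : ℝ) < n := by exact_mod_cast hn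
  have h1s : (1 : ℂ) - s ≠ 0 := by
    intro h
    have : s = 1 := by linear_combination -h
    rw [this] at hs
    simp at hs
  have h := norm_image_sub_le_of_norm_deriv_le_segment_01' (f := fun t : ℝ =>
    (((n : ℝ) + t : ℝ) : ℂ) ^ (1 - s) / (1 - s) - (t : ℂ) * ((n : ℝ) : ℂ) ^ (-s))
    (f' := fun t : ℝ => (((n : ℝ) + t : ℝ) : ℂ) ^ (-s) - ((n : ℝ) : ℂ) ^ (-s))
    (C := ‖s‖ * (n : ℝ) ^ (-s.re - 1)) ?_ ?_
  · have h2 : ((((n : ℝ) + 1 : ℝ) : ℂ) ^ (1 - s) / (1 - s) - ((n : ℝ) : ℂ) ^ (1 - s) / (1 - s)) -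
      ((n : ℝ) : ℂ) ^ (-s) = ((((n : ℝ) + 1 : ℝ) : ℂ) ^ (1 - s) / (1 - s) -
        ((1 : ℝ) : ℂ) * ((n : ℝ) : ℂ) ^ (-s)) - ((((n : ℝ) + 0 : ℝ) : ℂ) ^ (1 - s) / (1 - s) -
        ((0 : ℝ) : ℂ) * ((n : ℝ) : ℂ) ^ (-s)) := by
      simp only [ofReal_one, ofReal_zero, one_mul, zero_mul, add_zero]
      ring
    rw [h2]
    exact h
  · intro t ht
    have hpos : 0 < (n : ℝ) + t := by linarith [ht.1]
    apply HasDerivAt.hasDerivWithinAt
    have h1 : HasDerivAt (fun y : ℝ => (((n : ℝ) + y : ℝ) : ℂ)) 1 t := by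
      have := ((hasDerivAt_id t).const_add (n : ℝ)).ofReal_comp
      simpa using this
    have h3 : HasDerivAt (fun z : ℂ => z ^ (1 - s) / (1 - s))
        ((((n : ℝ) + t : ℝ) : ℂ) ^ (-s)) (((n : ℝ) + t : ℝ) : ℂ) := by
      have := ((hasDerivAt_id ((((n : ℝ) + t : ℝ) : ℂ))).cpow_const (c := 1 - s)
        (Or.inl (by rw [id]; exact_mod_cast hpos))).div_const (1 - s)
      have e : (1 - s) * id (((n : ℝ) + t : ℝ) : ℂ) ^ (1 - s - 1) * 1 / (1 - s) =
          (((n : ℝ) + t : ℝ) : ℂ) ^ (-s) := by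
        rw [show (1 : ℂ) - s - 1 = -s by ring]
        simp only [id]
        field_simp
      rw [e] at this
      exact this
    have h4 := h3.comp t h1
    have h5 : HasDerivAt (fun y : ℝ => (y : ℂ) * ((n : ℝ) : ℂ) ^ (-s))
        (((n : ℝ) : ℂ) ^ (-s)) t := by
      have := ((hasDerivAt_id t).ofReal_comp).mul_const (((n : ℝ) : ℂ) ^ (-s))
      simpa using this
    have h6 := h4.sub h5
    rw [mul_one] at h6
    exact h6
  · intro t ht
    have h1 := cpow_diff (a := (n : ℝ)) (b := (n : ℝ) + t) hn' (by linarith [ht.1]) (s := s)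
      (by linarith)
    refine h1.trans ?_
    have h2 : (n : ℝ) + t - n = t := by ring
    rw [h2]
    have h3 : 0 ≤ ‖s‖ * (n : ℝ) ^ (-s.re - 1) := by positivity
    nlinarith [ht.2.le]

lemma zeta_norm_le {s : ℂ} (hs : 1 < s.re) {N : ℝ} (hN : ‖s‖ + 2 ≤ N) {η : ℝ} (hη : 0 < η) :
    ‖riemannZeta s‖ ≤ 2 / ‖s - 1‖ + (9 + 1 / η) * N ^ (2 * η) := by
  set M : ℕ := ⌈‖s‖⌉₊ with hM
  have hMs : ‖s‖ ≤ M := Nat.le_ceil _
  have hs1 : 1 ≤ ‖s‖ := by
    have := abs_re_le_norm s
    have := le_abs_self s.re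
    linarith
  have hM1 : 1 ≤ M := by
    have : (1 : ℝ) ≤ M := by linarith
    exact_mod_cast this
  have hMN : (M : ℝ) ≤ N := by
    have := Nat.ceil_lt_add_one (norm_nonneg s)
    linarith
  have hN1 : 1 ≤ N := by linarith
  set a : ℕ → ℂ := fun n => (((n : ℝ) + 1 : ℝ) : ℂ) ^ (-s) with ha
  have hsumm : Summable a := by
    have h1 : Summable (fun n : ℕ => 1 / (n : ℂ) ^ s) := Complex.summable_one_div_nat_cpow.mpr hs
    have h2 := (summable_nat_add_iff 1).mpr h1
    refine h2.congr (fun n => ?_)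
    simp only [ha]
    rw [cpow_neg]
    push_cast
    simp
  have hz : riemannZeta s = ∑' n, a n := by
    rw [zeta_eq_tsum_one_div_nat_add_one_cpow hs]
    refine tsum_congr (fun n => ?_)
    simp only [ha]
    rw [cpow_neg]
    push_cast
    simp
  rw [hz, ← hsumm.sum_add_tsum_nat_add M]
  refine (norm_add_le _ _).trans ?_
  have hA : ‖∑ n ∈ range M, a n‖ ≤ 1 + Real.log N := by
    calc ‖∑ n ∈ range M, a n‖ ≤ ∑ n ∈ range M, ((n : ℝ) + 1)⁻¹ := by
          refine norm_sum_le_of_le _ (fun n _ => ?_)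
          simp only [ha]
          have hp : (0 : ℝ) < (n : ℝ) + 1 := by positivity
          rw [norm_cpow_eq_rpow_re_of_pos hp, ← Real.rpow_neg_one]
          apply Real.rpow_le_rpow_of_exponent_le _ (by simp; linarith)
          linarith [Nat.cast_nonneg (α := ℝ) n]
      _ = ((harmonic M : ℚ) : ℝ) := by
          rw [harmonic]; push_cast; rfl
      _ ≤ 1 + Real.log M := harmonic_le_one_add_log M
      _ ≤ 1 + Real.log N := by
          have := Real.log_le_log (by exact_mod_cast hM1) hMN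
          linarith
  have hs0 : s - 1 ≠ 0 := by
    intro h
    have : s = 1 := by linear_combination h
    rw [this] at hs
    simp at hs
  have hns : 0 < ‖s - 1‖ := norm_pos_iff.mpr hs0
  set g : ℕ → ℂ := fun n => ((n : ℝ) : ℂ) ^ (1 - s) / (1 - s) with hg
  have hgb : ∀ n : ℕ, 1 ≤ n → ‖g n‖ ≤ 1 / ‖s - 1‖ := by
    intro n hn
    have hn' : (1 : ℝ) ≤ n := by exact_mod_cast hn
    simp only [hg]
    rw [norm_div, norm_cpow_eq_rpow_re_of_pos (by linarith), norm_sub_rev 1 s]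
    apply div_le_div_of_nonneg_right _ hns.le
    apply Real.rpow_le_one_of_one_le_of_nonpos hn'
    simp
    linarith
  have hB : ‖∑' n, a (n + M)‖ ≤ 8 + 2 / ‖s - 1‖ := by
    have hs2 := (summable_nat_add_iff M).mpr hsumm
    refine le_of_tendsto hs2.hasSum.tendsto_sum_nat.norm (Eventually.of_forall (fun K => ?_))
    have h1 : ∑ n ∈ range K, a (n + M) = (g (K + M + 1) - g (M + 1)) -
        ∑ n ∈ range K, ((g (n + M + 1 + 1) - g (n + M + 1)) - a (n + M)) := by
      rw [sum_sub_distrib]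
      have : ∑ n ∈ range K, (g (n + M + 1 + 1) - g (n + M + 1)) = g (K + M + 1) - g (M + 1) := by
        have h2 := Finset.sum_range_sub (fun n => g (n + M + 1)) K
        simp only [zero_add] at h2
        rw [← h2]
        apply sum_congr rfl
        intro n _
        rw [show n + 1 + M + 1 = n + M + 1 + 1 by ring]
      rw [this]
      ring
    rw [h1]
    have h3 : ‖∑ n ∈ range K, ((g (n + M + 1 + 1) - g (n + M + 1)) - a (n + M))‖ ≤ 8 := by
      calc _ ≤ ∑ n ∈ range K, ‖s‖ * ((n + (M + 1) : ℕ) : ℝ) ^ (-(1 : ℝ) - 1) := by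
            refine norm_sum_le_of_le _ (fun n _ => ?_)
            have h4 := integral_step (n := n + M + 1) (by omega) hs
            have h5 : ‖s‖ * ((n + M + 1 : ℕ) : ℝ) ^ (-s.re - 1) ≤
                ‖s‖ * ((n + (M + 1) : ℕ) : ℝ) ^ (-(1 : ℝ) - 1) := by
              apply mul_le_mul_of_nonneg_left _ (norm_nonneg s)
              rw [show n + (M + 1) = n + M + 1 by ring]
              apply Real.rpow_le_rpow_of_exponent_le _ (by linarith)
              push_cast
              have : (0 : ℝ) ≤ (n : ℝ) + M := by positivity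
              linarith
            refine le_trans (le_of_eq ?_) (h4.trans h5)
            congr 1
            simp only [hg, ha]
            push_cast
            rfl
        _ = ‖s‖ * ∑ n ∈ range K, ((n + (M + 1) : ℕ) : ℝ) ^ (-(1 : ℝ) - 1) := by rw [mul_sum]
        _ ≤ ((M + 1 : ℕ) : ℝ) * (8 * ((M + 1 : ℕ) : ℝ) ^ (-(1 : ℝ))) := by
            apply mul_le_mul _ (sum_tail (a := 1) (by norm_num) le_rfl (by omega) K)
              (by positivity) (by positivity)
            push_cast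
            linarith
        _ = 8 := by
            rw [Real.rpow_neg_one]
            have : ((M + 1 : ℕ) : ℝ) ≠ 0 := by positivity
            field_simp
    calc _ ≤ ‖g (K + M + 1) - g (M + 1)‖ +
          ‖∑ n ∈ range K, ((g (n + M + 1 + 1) - g (n + M + 1)) - a (n + M))‖ := norm_sub_le _ _
      _ ≤ (‖g (K + M + 1)‖ + ‖g (M + 1)‖) + 8 := add_le_add (norm_sub_le _ _) h3
      _ ≤ (1 / ‖s - 1‖ + 1 / ‖s - 1‖) + 8 := by
          have := hgb (K + M + 1) (by omega)
          have := hgb (M + 1) (by omega)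
          linarith
      _ = 8 + 2 / ‖s - 1‖ := by ring
  have h7 : Real.log N ≤ N ^ (2 * η) / (2 * η) := Real.log_le_rpow_div (by linarith) (by linarith)
  have h8 : 1 ≤ N ^ (2 * η) := Real.one_le_rpow hN1 (by linarith)
  have h9 : N ^ (2 * η) / (2 * η) ≤ N ^ (2 * η) * (1 / η) := by
    rw [div_eq_mul_one_div]
    apply mul_le_mul_of_nonneg_left _ (by linarith)
    apply one_div_le_one_div_of_le hη
    linarith
  have : (9 + 1 / η) * N ^ (2 * η) = 9 * N ^ (2 * η) + N ^ (2 * η) * (1 / η) := by ring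
  rw [this]
  linarith

variable {q : ℕ} [NeZero q]

/-- Nonprincipal characters. -/
lemma char_norm_le {χ : DirichletCharacter ℂ q} (hχ : χ ≠ 1)
    {s : ℂ} {η : ℝ} (hη : 0 < η) (hη2 : η < 1 / 2) (hs : 1 - η ≤ s.re) {N : ℝ}
    (hN : q * (‖s‖ + 2) ≤ N) :
    ‖χ.LFunction s‖ ≤ (9 + 1 / η) * N ^ (2 * η) :=
  LFunction_norm_le (fun j => χ j) (fun j => χ.norm_le_one j) (MulChar.sum_eq_zero_of_ne_one hχ)
    hη hη2 hs hN

/-- The principal character for `Re s > 1`. -/
lemma triv_norm_le {s : ℂ} {η : ℝ} (hη : 0 < η) (hη2 : η < 1 / 2) (hs : 1 < s.re) {N : ℝ}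
    (hN : q * (‖s‖ + 2) ≤ N) :
    ‖(1 : DirichletCharacter ℂ q).LFunction s‖ ≤ 2 / ‖s - 1‖ + 2 * ((9 + 1 / η) * N ^ (2 * η)) := by
  have hq : (1 : ℝ) ≤ q := by exact_mod_cast NeZero.one_le
  set c : ZMod q → ℂ := fun j => (1 : DirichletCharacter ℂ q) j with hc
  set δ : ℝ := (∑ j, ‖c j‖) / q with hδ
  have hc01 : ∀ j, c j = 1 ∨ c j = 0 := by
    intro j
    by_cases hj : IsUnit j
    · left; exact MulChar.one_apply hj
    · right; exact MulChar.map_nonunit _ hj
  have hcn : ∀ j, c j = ((‖c j‖ : ℝ) : ℂ) := by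
    intro j
    rcases hc01 j with h | h <;> simp [h]
  have hcard : ∑ _j : ZMod q, (1 : ℝ) = q := by simp [ZMod.card]
  have hδ0 : 0 ≤ δ := by positivity
  have hδ1 : δ ≤ 1 := by
    rw [hδ, div_le_one (by linarith)]
    calc ∑ j, ‖c j‖ ≤ ∑ _j : ZMod q, (1 : ℝ) := by
          apply sum_le_sum
          intro j _
          rcases hc01 j with h | h <;> simp [h]
      _ = q := hcard
  set Φ : ZMod q → ℂ := fun j => c j - (δ : ℂ) with hΦ
  have hΦ1 : ∀ j, ‖Φ j‖ ≤ 1 := by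
    intro j
    simp only [hΦ]
    rcases hc01 j with h | h
    · rw [h]
      have : (1 : ℂ) - (δ : ℂ) = ((1 - δ : ℝ) : ℂ) := by push_cast; ring
      rw [this, Complex.norm_real, Real.norm_eq_abs, abs_le]
      constructor <;> linarith
    · rw [h, zero_sub, norm_neg, Complex.norm_real, Real.norm_eq_abs, abs_le]
      constructor <;> linarith
  have hΦ0 : ∑ j, Φ j = 0 := by
    simp only [hΦ, sum_sub_distrib]
    have h1 : ∑ j, c j = ((∑ j, ‖c j‖ : ℝ) : ℂ) := by
      push_cast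
      exact sum_congr rfl (fun j _ => hcn j)
    have h2 : ∑ _j : ZMod q, (δ : ℂ) = ((q * δ : ℝ) : ℂ) := by
      simp [ZMod.card]
    rw [h1, h2, ← ofReal_sub, hδ]
    have : (q : ℝ) ≠ 0 := by linarith
    have h3 : ∑ j, ‖c j‖ - q * ((∑ j, ‖c j‖) / q) = 0 := by field_simp; ring
    rw [h3]; simp
  have hdec : (1 : DirichletCharacter ℂ q).LFunction s =
      ZMod.LFunction Φ s + (δ : ℂ) * riemannZeta s := by
    rw [DirichletCharacter.LFunction_eq_LSeries _ hs, ZMod.LFunction_eq_LSeries Φ hs,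
      ← LSeries_one_eq_riemannZeta hs, ← LSeries_smul, ← LSeries_add
        (ZMod.LSeriesSummable_of_one_lt_re Φ hs)]
    · apply LSeries_congr
      intro n _
      simp only [hΦ, hc, Pi.add_apply, Pi.smul_apply, smul_eq_mul, Pi.one_apply]
      ring
    · apply LSeriesSummable.smul
      exact LSeriesSummable_one_iff.mpr hs
  rw [hdec]
  have hns : 0 ≤ ‖s‖ := norm_nonneg s
  have h1 := LFunction_norm_le Φ hΦ1 hΦ0 hη hη2 (by linarith : 1 - η ≤ s.re) hN
  have h2 := zeta_norm_le hs (N := N) (by nlinarith) hη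
  calc ‖ZMod.LFunction Φ s + (δ : ℂ) * riemannZeta s‖
      ≤ ‖ZMod.LFunction Φ s‖ + ‖(δ : ℂ) * riemannZeta s‖ := norm_add_le _ _
    _ ≤ (9 + 1 / η) * N ^ (2 * η) + 1 * (2 / ‖s - 1‖ + (9 + 1 / η) * N ^ (2 * η)) := by
        apply add_le_add h1
        rw [norm_mul, Complex.norm_real, Real.norm_of_nonneg hδ0]
        exact mul_le_mul hδ1 h2 (norm_nonneg _) zero_le_one
    _ = _ := by ring

/-- 3-4-1, pointwise. -/
lemma pointwise_lower {χ : DirichletCharacter ℂ q} {x t A B : ℝ} (hx : 0 < x)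
    (hA : ‖(1 : DirichletCharacter ℂ q).LFunction (1 + x)‖ ≤ A / x)
    (hB : ‖(χ ^ 2).LFunction (1 + x + 2 * I * t)‖ ≤ B) :
    x ^ 3 ≤ A ^ 3 * B * ‖χ.LFunction (1 + x + I * t)‖ ^ 4 := by
  have h := DirichletCharacter.norm_LFunction_product_ge_one χ hx t
  rw [norm_mul, norm_mul, norm_pow, norm_pow] at h
  have h1 : (0 : ℝ) ≤ ‖χ.LFunction (1 + x + I * t)‖ ^ 4 := by positivity
  have hx3 : 0 < x ^ 3 := by positivity
  have hA0 : 0 ≤ A / x := (norm_nonneg _).trans hA
  have h2 : ‖DirichletCharacter.LFunctionTrivChar q (1 + x)‖ ^ 3 ≤ (A / x) ^ 3 :=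
    pow_le_pow_left₀ (norm_nonneg _) hA 3
  have h3 : 1 ≤ (A / x) ^ 3 * ‖χ.LFunction (1 + x + I * t)‖ ^ 4 * B := by
    refine le_trans h ?_
    apply mul_le_mul _ hB (norm_nonneg _) (by positivity)
    exact mul_le_mul_of_nonneg_right h2 h1
  have h4 : x ^ 3 * 1 ≤ x ^ 3 * ((A / x) ^ 3 * ‖χ.LFunction (1 + x + I * t)‖ ^ 4 * B) :=
    mul_le_mul_of_nonneg_left h3 hx3.le
  have h5 : x ^ 3 * ((A / x) ^ 3 * ‖χ.LFunction (1 + x + I * t)‖ ^ 4 * B) =
      A ^ 3 * B * ‖χ.LFunction (1 + x + I * t)‖ ^ 4 := by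
    rw [div_pow]
    field_simp
  linarith

lemma lower_of_pointwise {f : ℝ → ℝ} {D V : ℝ} (hD : 1 ≤ D) (hV : 1 ≤ V)
    (h0 : ∀ x, 0 ≤ f x)
    (hf : ∀ x, 0 < x → x ≤ 1 → x ^ 3 ≤ D * (f x) ^ 4)
    (hlip : ∀ x y, 0 < x → x ≤ y → y ≤ 1 → f y ≤ f x + V * (y - x)) {x : ℝ} (hx : 0 < x)
    (hx1 : x ≤ 1) : 1 / (16 * D * V ^ 3) ≤ f x := by
  set x0 : ℝ := 1 / (16 * D * V ^ 4) with hx0
  have hD0 : 0 < D := by linarith
  have hV0 : 0 < V := by linarith
  have hV4 : 1 ≤ V ^ 4 := one_le_pow₀ hV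
  have hx0p : 0 < x0 := by positivity
  have hx01 : x0 ≤ 1 := by
    rw [hx0, div_le_one (by positivity)]
    nlinarith
  have hVx : V * x0 = 1 / (16 * D * V ^ 3) := by
    rw [hx0]; field_simp
  have key : ∀ y, x0 ≤ y → y ≤ 1 → 2 * (V * x0) ≤ f y := by
    intro y hy hy1
    have h1 := hf y (by linarith) hy1
    have h2 : x0 ^ 3 ≤ y ^ 3 := pow_le_pow_left₀ hx0p.le hy 3
    have h3 : x0 ^ 3 = D * (2 * (V * x0)) ^ 4 := by
      have : D * (2 * (V * x0)) ^ 4 = x0 ^ 3 * (16 * D * V ^ 4 * x0) := by ring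
      rw [this]
      have : 16 * D * V ^ 4 * x0 = 1 := by rw [hx0]; field_simp
      rw [this, mul_one]
    have h4 : (2 * (V * x0)) ^ 4 ≤ (f y) ^ 4 := by
      have : D * (2 * (V * x0)) ^ 4 ≤ D * (f y) ^ 4 := by linarith
      exact le_of_mul_le_mul_left this hD0
    exact (pow_le_pow_iff_left₀ (by positivity) (h0 y) (by norm_num)).mp h4
  rw [← hVx]
  have hVx0 : 0 < V * x0 := by positivity
  rcases le_or_gt x0 x with h | h
  · have := key x h hx1
    linarith
  · have h1 := key x0 le_rfl hx01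
    have h2 := hlip x x0 hx h.le hx01
    nlinarith

lemma char_lip {χ : DirichletCharacter ℂ q} (hχ : χ ≠ 1) {η : ℝ} (hη : 0 < η) (hη2 : η < 1 / 2)
    {R N : ℝ} (hN : q * (R + 3) ≤ N) {a b : ℂ} (ha : 1 ≤ a.re) (hb : 1 ≤ b.re) (ha' : ‖a‖ ≤ R)
    (hb' : ‖b‖ ≤ R) :
    ‖χ.LFunction b - χ.LFunction a‖ ≤ ((9 + 1 / η) * N ^ (2 * η) / η) * ‖b - a‖ := by
  have hd : Differentiable ℂ χ.LFunction := DirichletCharacter.differentiable_LFunction hχ
  have hconv : Convex ℝ ({z : ℂ | 1 ≤ z.re} ∩ Metric.closedBall 0 R) :=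
    (convex_halfSpace_re_ge 1).inter (convex_closedBall 0 R)
  refine hconv.norm_image_sub_le_of_norm_deriv_le (fun z _ => hd z) (fun z hz => ?_)
    ⟨ha, by simpa using ha'⟩ ⟨hb, by simpa using hb'⟩
  have hz1 : 1 ≤ z.re := hz.1
  have hz2 : ‖z‖ ≤ R := by simpa using hz.2
  have hq : (0 : ℝ) ≤ q := Nat.cast_nonneg q
  have h := iteratedDeriv_LFunction_norm_le (fun j => χ j) (fun j => χ.norm_le_one j)
    (MulChar.sum_eq_zero_of_ne_one hχ) 1 hη hη2 hz1 (N := N) (by nlinarith)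
  rw [iteratedDeriv_one, Nat.factorial_one, Nat.cast_one, one_mul, pow_one] at h
  exact h

theorem char_lower {χ : DirichletCharacter ℂ q} (hχ : χ ≠ 1) {σ : ℝ} (hσ : 0 < σ) (hσ1 : σ ≤ 1)
    (hS : χ ^ 2 = 1 → σ ≤ ‖χ.LFunction 1‖) {η : ℝ} (hη : 0 < η) (hη2 : η < 1 / 2) {x t N : ℝ}
    (hx : 0 < x) (hx1 : x ≤ 1) (hN : q * (2 * |t| + 6) ≤ N) {V : ℝ}
    (hV : V = (9 + 1 / η) * N ^ (2 * η) / η) :
    σ / (4320 * V ^ 7) ≤ ‖χ.LFunction (1 + x + I * t)‖ := by
  have hq : (1 : ℝ) ≤ q := by exact_mod_cast NeZero.one_le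
  have ht0 : 0 ≤ |t| := abs_nonneg t
  have hN1 : 1 ≤ N := by nlinarith
  set W : ℝ := (9 + 1 / η) * N ^ (2 * η) with hW
  have hNη : 1 ≤ N ^ (2 * η) := Real.one_le_rpow hN1 (by linarith)
  have hW9 : 9 ≤ W := by
    have : 0 < 1 / η := by positivity
    rw [hW]; nlinarith
  have hWV : W ≤ V := by
    rw [hV, le_div_iff₀ hη]
    nlinarith
  have hV9 : 9 ≤ V := hW9.trans hWV
  have hV0 : 0 < V := by linarith
  set D : ℝ := 270 * V ^ 4 / σ with hD
  have hD0 : 0 < D := by positivity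
  have hσV : V ≤ V / σ := by
    rw [le_div_iff₀ hσ]; nlinarith
  -- norms of points
  have hnorm : ∀ y : ℝ, 0 < y → y ≤ 1 → ∀ u : ℝ, ‖(1 : ℂ) + y + I * u‖ ≤ 2 + |u| := by
    intro y hy hy1 u
    calc ‖(1 : ℂ) + y + I * u‖ ≤ ‖(1 : ℂ) + y‖ + ‖I * u‖ := norm_add_le _ _
      _ ≤ 2 + |u| := by
          apply add_le_add
          · refine (norm_add_le _ _).trans ?_
            rw [norm_one, Complex.norm_real, Real.norm_of_nonneg hy.le]
            linarith
          · rw [norm_mul, norm_I, one_mul, Complex.norm_real, Real.norm_eq_abs]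
  have hre : ∀ y u : ℝ, ((1 : ℂ) + y + I * u).re = 1 + y := by
    intro y u; simp
  -- bound for the principal character
  have hA : ∀ y : ℝ, 0 < y → y ≤ 1 →
      ‖(1 : DirichletCharacter ℂ q).LFunction (1 + y)‖ ≤ (3 * W) / y := by
    intro y hy hy1
    have hn := hnorm y hy hy1 0
    have hr := hre y 0
    simp only [ofReal_zero, mul_zero, add_zero, abs_zero] at hn hr
    have h1 := triv_norm_le (q := q) hη hη2 (s := 1 + y) (by rw [hr]; linarith) (N := N)
      (by nlinarith)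
    rw [show (1 : ℂ) + y - 1 = y by ring, Complex.norm_real, Real.norm_of_nonneg hy.le] at h1
    refine h1.trans ?_
    rw [le_div_iff₀ hy]
    have : (2 / y + 2 * W) * y = 2 + 2 * W * y := by field_simp
    rw [← hW, this]
    nlinarith
  -- pointwise bound given a bound for the square
  have hpt : ∀ y : ℝ, 0 < y → y ≤ 1 → ‖(χ ^ 2).LFunction (1 + y + 2 * I * t)‖ ≤ 10 * V / σ →
      y ^ 3 ≤ D * ‖χ.LFunction (1 + y + I * t)‖ ^ 4 := by
    intro y hy hy1 hB
    refine (pointwise_lower hy (hA y hy hy1) hB).trans ?_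
    apply mul_le_mul_of_nonneg_right _ (by positivity)
    rw [hD]
    have h1 : (3 * W) ^ 3 ≤ (3 * V) ^ 3 := pow_le_pow_left₀ (by linarith) (by linarith) 3
    calc (3 * W) ^ 3 * (10 * V / σ) ≤ (3 * V) ^ 3 * (10 * V / σ) :=
          mul_le_mul_of_nonneg_right h1 (by positivity)
      _ = 270 * V ^ 4 / σ := by ring
  have hsq : ∀ y : ℝ, 0 < y → y ≤ 1 → χ ^ 2 = 1 →
      ‖(χ ^ 2).LFunction (1 + y + 2 * I * t)‖ ≤ 2 / ‖(y : ℂ) + 2 * I * t‖ + 2 * W := by
    intro y hy hy1 h2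
    have e : (1 : ℂ) + y + 2 * I * t = 1 + y + I * ((2 * t : ℝ) : ℂ) := by push_cast; ring
    have hn := hnorm y hy hy1 (2 * t)
    rw [abs_mul, abs_two] at hn
    have h1 := triv_norm_le (q := q) hη hη2 (s := 1 + y + 2 * I * t)
      (by rw [e, hre]; linarith) (N := N) (by rw [e]; nlinarith)
    rw [h2]
    rw [show (1 : ℂ) + y + 2 * I * t - 1 = y + 2 * I * t by ring] at h1
    exact h1
  set τ : ℝ := σ / (4 * V) with hτ
  have hτ0 : 0 < τ := by positivity
  have h1V7 : 1 ≤ V ^ 7 := one_le_pow₀ (by linarith)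
  have h1V3 : 1 ≤ V ^ 3 := one_le_pow₀ (by linarith)
  have h2τ : 2 / τ = 8 * (V / σ) := by rw [hτ]; field_simp; norm_num
  by_cases hbad : χ ^ 2 = 1 ∧ |t| < τ
  · rcases le_or_gt τ x with hxτ | hxτ
    · have hB : ‖(χ ^ 2).LFunction (1 + x + 2 * I * t)‖ ≤ 10 * V / σ := by
        refine (hsq x hx hx1 hbad.1).trans ?_
        have h1 : x ≤ ‖(x : ℂ) + 2 * I * t‖ := by
          have := abs_re_le_norm ((x : ℂ) + 2 * I * t)
          have h3 : ((x : ℂ) + 2 * I * t).re = x := by simp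
          rw [h3] at this
          exact (le_abs_self x).trans this
        have h2 : 2 / ‖(x : ℂ) + 2 * I * t‖ ≤ 2 / τ :=
          div_le_div_of_nonneg_left (by norm_num) hτ0 (hxτ.trans h1)
        have h3 : 10 * V / σ = 10 * (V / σ) := by ring
        rw [h3]
        linarith
      have h1 := hpt x hx hx1 hB
      have h2 : 1 / D ≤ τ := by
        rw [hD, hτ, one_div_div, div_le_div_iff_of_pos_left hσ (by positivity) (by positivity)]
        have : V ^ 4 = V * V ^ 3 := by ring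
        rw [this]
        nlinarith
      have h3 : (1 / D) ^ 4 ≤ ‖χ.LFunction (1 + x + I * t)‖ ^ 4 := by
        have h4 : (1 / D) ^ 3 ≤ x ^ 3 := pow_le_pow_left₀ (by positivity) (h2.trans hxτ) 3
        have h5 : D * (1 / D) ^ 4 ≤ D * ‖χ.LFunction (1 + x + I * t)‖ ^ 4 := by
          have : D * (1 / D) ^ 4 = (1 / D) ^ 3 := by field_simp
          rw [this]; linarith
        exact le_of_mul_le_mul_left h5 hD0
      have h4 := (pow_le_pow_iff_left₀ (by positivity) (norm_nonneg _) (by norm_num)).mp h3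
      refine le_trans ?_ h4
      rw [hD, one_div_div, div_le_div_iff_of_pos_left hσ (by positivity) (by positivity)]
      have : V ^ 7 = V ^ 4 * V ^ 3 := by ring
      rw [this]
      have : 0 < V ^ 4 := by positivity
      nlinarith
    · have h1 := hS hbad.1
      have h2 := char_lip hχ hη hη2 (R := |t| + 2) (N := N) (by nlinarith) (a := 1 + x + I * t)
        (b := 1) (by rw [hre]; linarith) (by simp) (by linarith [hnorm x hx hx1 t])
        (by rw [norm_one]; linarith)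
      rw [← hW, ← hV] at h2
      have h3 : ‖(1 : ℂ) - (1 + x + I * t)‖ ≤ 2 * τ := by
        have e : (1 : ℂ) - (1 + x + I * t) = -(x + I * t) := by ring
        rw [e, norm_neg]
        refine (norm_add_le _ _).trans ?_
        rw [norm_mul, norm_I, one_mul, Complex.norm_real, Complex.norm_real,
          Real.norm_of_nonneg hx.le, Real.norm_eq_abs]
        linarith [hbad.2]
      have h4 : ‖χ.LFunction 1‖ ≤ ‖χ.LFunction 1 - χ.LFunction (1 + x + I * t)‖ +
          ‖χ.LFunction (1 + x + I * t)‖ := by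
        simpa using norm_add_le (χ.LFunction 1 - χ.LFunction (1 + x + I * t))
          (χ.LFunction (1 + x + I * t))
      have h5 : V * ‖(1 : ℂ) - (1 + x + I * t)‖ ≤ σ / 2 := by
        calc V * ‖(1 : ℂ) - (1 + x + I * t)‖ ≤ V * (2 * τ) :=
              mul_le_mul_of_nonneg_left h3 hV0.le
          _ = σ / 2 := by rw [hτ]; field_simp; norm_num
      have h6 : σ / (4320 * V ^ 7) ≤ σ / 2 :=
        div_le_div_of_nonneg_left hσ.le (by norm_num) (by linarith)
      linarith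
  · have hB : ∀ y : ℝ, 0 < y → y ≤ 1 →
        ‖(χ ^ 2).LFunction (1 + y + 2 * I * t)‖ ≤ 10 * V / σ := by
      intro y hy hy1
      by_cases h2 : χ ^ 2 = 1
      · have ht : τ ≤ |t| := by
          by_contra hcon
          exact hbad ⟨h2, not_le.mp hcon⟩
        refine (hsq y hy hy1 h2).trans ?_
        have h1 : τ ≤ ‖(y : ℂ) + 2 * I * t‖ := by
          have h4 := abs_im_le_norm ((y : ℂ) + 2 * I * t)
          have h3 : ((y : ℂ) + 2 * I * t).im = 2 * t := by simp
          rw [h3, abs_mul, abs_two] at h4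
          linarith
        have h2 : 2 / ‖(y : ℂ) + 2 * I * t‖ ≤ 2 / τ :=
          div_le_div_of_nonneg_left (by norm_num) hτ0 h1
        have h3 : 10 * V / σ = 10 * (V / σ) := by ring
        rw [h3]
        linarith
      · have e : (1 : ℂ) + y + 2 * I * t = 1 + y + I * ((2 * t : ℝ) : ℂ) := by push_cast; ring
        have hn := hnorm y hy hy1 (2 * t)
        rw [abs_mul, abs_two] at hn
        have h1 := char_norm_le (χ := χ ^ 2) h2 hη hη2 (s := 1 + y + 2 * I * t)
          (by rw [e, hre]; linarith) (N := N) (by rw [e]; nlinarith)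
        refine h1.trans ?_
        have h3 : 10 * V / σ = 10 * (V / σ) := by ring
        rw [h3, ← hW]
        linarith
    have hD1 : 1 ≤ D := by
      rw [hD, le_div_iff₀ hσ]
      have : V ^ 4 = V * V ^ 3 := by ring
      nlinarith
    have h := lower_of_pointwise (f := fun y => ‖χ.LFunction (1 + y + I * t)‖) hD1
      (by linarith : (1 : ℝ) ≤ V) (fun y => norm_nonneg _)
      (fun y hy hy1 => hpt y hy hy1 (hB y hy hy1)) (fun y z hy hyz hz => ?_) hx hx1
    · refine le_trans (le_of_eq ?_) h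
      rw [hD]
      field_simp
      norm_num
    · have h2 := char_lip hχ hη hη2 (R := |t| + 2) (N := N) (by nlinarith) (a := 1 + y + I * t)
        (b := 1 + z + I * t) (by rw [hre]; linarith) (by rw [hre]; linarith)
        (by linarith [hnorm y hy (hyz.trans hz) t]) (by linarith [hnorm z (by linarith) hz t])
      rw [← hW, ← hV] at h2
      have e : (1 : ℂ) + z + I * t - (1 + y + I * t) = ((z - y : ℝ) : ℂ) := by push_cast; ring
      rw [e, Complex.norm_real, Real.norm_of_nonneg (by linarith)] at h2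
      have h4 : ‖χ.LFunction (1 + z + I * t)‖ ≤
          ‖χ.LFunction (1 + z + I * t) - χ.LFunction (1 + y + I * t)‖ +
          ‖χ.LFunction (1 + y + I * t)‖ := by
        simpa using norm_add_le (χ.LFunction (1 + z + I * t) - χ.LFunction (1 + y + I * t))
          (χ.LFunction (1 + y + I * t))
      linarith

end Pool.Agent.H379R2.SW
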