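import Pool.Agent.H50.G.S.H379R2.SW2
import Pool.Agent.H50.G.S.H379R2.SWP
/-!
Bounds for the derivatives of `-L'/L(s) / s^2` on vertical lines, and integration by parts.
-/

set_option autoImplicit false

open MeasureTheory Complex Filter Topology Set
open scoped Real

namespace Pool.Agent.H379R2.SW

lemma cauchy_sq {g : ℂ → ℂ} {s : ℂ} {ρ P : ℝ} (hρ : 0 < ρ) (hρ2 : ρ ≤ 1 / 2) (hs : 1 ≤ ‖s‖)
    (hd : ∀ z ∈ Metric.closedBall s ρ, DifferentiableAt ℂ g z)
    (hb : ∀ z ∈ Metric.closedBall s ρ, ‖g z‖ ≤ P) (k : ℕ) :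
    ‖iteratedDeriv k (fun z => g z / z ^ 2) s‖ ≤
      k.factorial * (4 * P) / ρ ^ k * (‖s‖ ^ 2)⁻¹ := by
  have hP : 0 ≤ P := (norm_nonneg _).trans (hb s (Metric.mem_closedBall_self hρ.le))
  have hs0 : 0 < ‖s‖ := by linarith
  have hz : ∀ z ∈ Metric.closedBall s ρ, ‖s‖ / 2 ≤ ‖z‖ := by
    intro z hz
    rw [mem_closedBall_iff_norm] at hz
    have h1 : ‖s‖ ≤ ‖z‖ + ‖z - s‖ := by
      have : s = z - (z - s) := by ring
      calc ‖s‖ = ‖z - (z - s)‖ := by rw [← this]
        _ ≤ ‖z‖ + ‖z - s‖ := norm_sub_le _ _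
    linarith
  have hz0 : ∀ z ∈ Metric.closedBall s ρ, z ≠ 0 := by
    intro z hz' h0
    have := hz z hz'
    rw [h0, norm_zero] at this
    linarith
  have hdiff : ∀ z ∈ Metric.closedBall s ρ, DifferentiableAt ℂ (fun z => g z / z ^ 2) z := by
    intro z hz'
    exact (hd z hz').div (differentiableAt_id.pow 2) (pow_ne_zero 2 (hz0 z hz'))
  have hDC : DiffContOnCl ℂ (fun z => g z / z ^ 2) (Metric.ball s ρ) := by
    apply DifferentiableOn.diffContOnCl
    rw [closure_ball s hρ.ne']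
    intro z hz'
    exact (hdiff z hz').differentiableWithinAt
  have h := norm_iteratedDeriv_le_of_forall_mem_sphere_norm_le k hρ hDC
    (C := 4 * P * (‖s‖ ^ 2)⁻¹) ?_
  · refine h.trans (le_of_eq ?_)
    ring
  · intro z hz'
    have hzc := Metric.sphere_subset_closedBall hz'
    rw [norm_div, norm_pow]
    have h1 : (‖s‖ / 2) ^ 2 ≤ ‖z‖ ^ 2 := pow_le_pow_left₀ (by positivity) (hz z hzc) 2
    calc ‖g z‖ / ‖z‖ ^ 2 ≤ P / (‖s‖ / 2) ^ 2 :=
          div_le_div₀ hP (hb z hzc) (by positivity) h1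
      _ = 4 * P * (‖s‖ ^ 2)⁻¹ := by
          field_simp
          norm_num

variable {q : ℕ} [NeZero q]

lemma logDeriv_ball {χ : DirichletCharacter ℂ q} (hχ : χ ≠ 1) {η : ℝ} (hη : 0 < η)
    (hη2 : η < 1 / 2) {s : ℂ} {N m V : ℝ} (hs : 1 ≤ s.re) (hN : q * (‖s‖ + 3) ≤ N) (hm : 0 < m)
    (hm1 : m ≤ 1) (hL : m ≤ ‖χ.LFunction s‖) (hV : V = (9 + 1 / η) * N ^ (2 * η) / η) :
    ∀ z ∈ Metric.closedBall s (m / (4 * V)), χ.LFunction z ≠ 0 ∧
      ‖-deriv χ.LFunction z / χ.LFunction z‖ ≤ 4 * V / m := by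
  have hq : (1 : ℝ) ≤ q := by exact_mod_cast NeZero.one_le
  have hns := norm_nonneg s
  have hN1 : 1 ≤ N := by nlinarith
  set W : ℝ := (9 + 1 / η) * N ^ (2 * η) with hW
  have hNη : 1 ≤ N ^ (2 * η) := Real.one_le_rpow hN1 (by linarith)
  have hW9 : 9 ≤ W := by
    have : 0 < 1 / η := by positivity
    rw [hW]; nlinarith
  have hV9 : 9 / η ≤ V := by
    rw [hV]
    exact div_le_div_of_nonneg_right hW9 hη.le
  have hV0 : 0 < V := lt_of_lt_of_le (by positivity) hV9
  have hd : Differentiable ℂ χ.LFunction := DirichletCharacter.differentiable_LFunction hχ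
  have hr : m / (4 * V) ≤ η / 2 := by
    rw [div_le_iff₀ (by positivity)]
    have h1 : 9 ≤ V * η := by rwa [div_le_iff₀ hη] at hV9
    nlinarith
  have hder : ∀ w ∈ Metric.closedBall s (m / (4 * V)), ‖deriv χ.LFunction w‖ ≤ 2 * V := by
    intro w hw
    have hw' : ‖w - s‖ ≤ η / 2 := by
      rw [mem_closedBall_iff_norm] at hw
      exact hw.trans hr
    have h := norm_deriv_le_of_forall_mem_sphere_norm_le (c := w) (R := η / 2) (C := W)
      (half_pos hη) (f := χ.LFunction) hd.diffContOnCl ?_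
    · refine h.trans (le_of_eq ?_)
      rw [hV]; field_simp
    · intro u hu
      rw [mem_sphere_iff_norm] at hu
      have h1 : ‖u - s‖ ≤ η := by
        have : u - s = (u - w) + (w - s) := by ring
        rw [this]
        refine (norm_add_le _ _).trans ?_
        linarith
      have h2 : 1 - η ≤ u.re := by
        have h3 : |(u - s).re| ≤ η := (abs_re_le_norm _).trans h1
        rw [sub_re] at h3
        have := (abs_le.mp h3).1
        linarith
      have h4 : ‖u‖ ≤ ‖s‖ + 1 := by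
        have : u = s + (u - s) := by ring
        rw [this]
        refine (norm_add_le _ _).trans ?_
        linarith
      exact char_norm_le hχ hη hη2 h2 (by nlinarith)
  intro z hz
  have hlip : ‖χ.LFunction z - χ.LFunction s‖ ≤ 2 * V * ‖z - s‖ :=
    (convex_closedBall s (m / (4 * V))).norm_image_sub_le_of_norm_deriv_le
      (fun w _ => hd w) hder (Metric.mem_closedBall_self (by positivity)) hz
  rw [mem_closedBall_iff_norm] at hz
  have h1 : ‖χ.LFunction z - χ.LFunction s‖ ≤ m / 2 := by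
    refine hlip.trans ?_
    calc 2 * V * ‖z - s‖ ≤ 2 * V * (m / (4 * V)) := mul_le_mul_of_nonneg_left hz (by positivity)
      _ = m / 2 := by field_simp; norm_num
  have h2 : m / 2 ≤ ‖χ.LFunction z‖ := by
    have h3 : ‖χ.LFunction s‖ ≤ ‖χ.LFunction z‖ + ‖χ.LFunction z - χ.LFunction s‖ := by
      calc ‖χ.LFunction s‖ = ‖χ.LFunction z - (χ.LFunction z - χ.LFunction s)‖ := by
            congr 1; ring
        _ ≤ _ := norm_sub_le _ _
    linarith
  constructor
  · intro h0
    rw [h0, norm_zero] at h2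
    linarith
  · rw [norm_div, norm_neg]
    calc ‖deriv χ.LFunction z‖ / ‖χ.LFunction z‖ ≤ (2 * V) / (m / 2) :=
          div_le_div₀ (by positivity) (hder z (by rw [mem_closedBall_iff_norm]; exact hz))
            (by positivity) h2
      _ = 4 * V / m := by field_simp; norm_num

/-- `-L'/L(z) / z^2` -/
noncomputable def fL (χ : DirichletCharacter ℂ q) (z : ℂ) : ℂ :=
  (-deriv χ.LFunction z / χ.LFunction z) / z ^ 2

lemma fL_bound {χ : DirichletCharacter ℂ q} (hχ : χ ≠ 1) {c₁ : ℝ} (hc₁ : 0 < c₁) (hc₁1 : c₁ ≤ 1)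
    {η : ℝ} (hη : 0 < η) (hη2 : η < 1 / 2)
    (hS : χ ^ 2 = 1 → c₁ * (q : ℝ) ^ (-η) ≤ ‖χ.LFunction 1‖) {c : ℝ} (hc : 1 < c) (hc2 : c ≤ 2)
    (ξ : ℝ) (j : ℕ) :
    ‖iteratedDeriv j (fL χ) (vert c ξ)‖ ≤ j.factorial * 4 *
      (17280 * ((9 + 1 / η) / η) ^ 8 / c₁ * (q * (2 * |2 * π * ξ| + 6)) ^ (17 * η)) ^ (j + 1) *
        (‖vert c ξ‖ ^ 2)⁻¹ := by
  have hq : (1 : ℝ) ≤ q := by exact_mod_cast NeZero.one_le
  set t : ℝ := 2 * π * ξ with ht
  have ht0 : 0 ≤ |t| := abs_nonneg t
  set N : ℝ := q * (2 * |t| + 6) with hN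
  have hqN : (q : ℝ) ≤ N := by rw [hN]; nlinarith
  have hN1 : 1 ≤ N := by linarith
  set K : ℝ := (9 + 1 / η) / η with hK
  set V : ℝ := (9 + 1 / η) * N ^ (2 * η) / η with hV
  have hVK : V = K * N ^ (2 * η) := by rw [hV, hK]; ring
  have hNη : 1 ≤ N ^ (2 * η) := Real.one_le_rpow hN1 (by linarith)
  have hK0 : 0 < K := by positivity
  have hV0 : 0 < V := by positivity
  set σ : ℝ := c₁ * (q : ℝ) ^ (-η) with hσ
  have hqη : (q : ℝ) ^ (-η) ≤ 1 := Real.rpow_le_one_of_one_le_of_nonpos hq (by linarith)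
  have hqη0 : 0 < (q : ℝ) ^ (-η) := Real.rpow_pos_of_pos (by linarith) _
  have hσ0 : 0 < σ := by positivity
  have hσ1 : σ ≤ 1 := by rw [hσ]; nlinarith
  have hvert : vert c ξ = 1 + ((c - 1 : ℝ) : ℂ) + I * (t : ℂ) := by
    simp only [vert, ht]
    push_cast
    ring
  have hlow := char_lower hχ hσ0 hσ1 hS hη hη2 (x := c - 1) (t := t) (N := N) (by linarith)
    (by linarith) le_rfl hV
  rw [← hvert] at hlow
  set m : ℝ := σ / (4320 * V ^ 7) with hm
  have hV9 : 1 ≤ V := by
    rw [hV, le_div_iff₀ hη]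
    have : 0 < 1 / η := by positivity
    nlinarith
  have hV7 : 1 ≤ V ^ 7 := one_le_pow₀ hV9
  have hm0 : 0 < m := by positivity
  have hm1 : m ≤ 1 := by
    rw [hm, div_le_one (by positivity)]
    nlinarith
  have hnormv : ‖vert c ξ‖ ≤ 2 + |t| := by
    rw [hvert]
    have e : (1 : ℂ) + ((c - 1 : ℝ) : ℂ) + I * (t : ℂ) = (c : ℂ) + I * t := by push_cast; ring
    rw [e]
    refine (norm_add_le _ _).trans ?_
    rw [norm_mul, norm_I, one_mul, Complex.norm_real, Complex.norm_real,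
      Real.norm_of_nonneg (by linarith), Real.norm_eq_abs]
    linarith
  have hball := logDeriv_ball hχ hη hη2 (s := vert c ξ) (N := N) (m := m) (V := V)
    (by rw [vert_re]; linarith) (by rw [hN]; nlinarith) hm0 hm1 hlow hV
  have hd : Differentiable ℂ χ.LFunction := DirichletCharacter.differentiable_LFunction hχ
  have hdd : Differentiable ℂ (deriv χ.LFunction) := by
    intro z
    exact (hd.analyticAt z).deriv.differentiableAt
  have hρ : m / (4 * V) ≤ 1 / 2 := by
    rw [div_le_iff₀ (by positivity)]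
    nlinarith
  have h1v : 1 ≤ ‖vert c ξ‖ := by
    have := abs_re_le_norm (vert c ξ)
    rw [vert_re, abs_of_pos (by linarith)] at this
    linarith
  have h := cauchy_sq (g := fun z => -deriv χ.LFunction z / χ.LFunction z) (s := vert c ξ)
    (ρ := m / (4 * V)) (P := 4 * V / m) (by positivity) hρ h1v
    (fun z hz => ((hdd z).neg).div (hd z) (hball z hz).1) (fun z hz => (hball z hz).2) j
  have hQ : 4 * V / m ≤ 17280 * K ^ 8 / c₁ * N ^ (17 * η) := by
    have e1 : 4 * V / m = 17280 * V ^ 8 / σ := by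
      rw [hm]; field_simp; norm_num
    have e2 : V ^ 8 = K ^ 8 * N ^ (16 * η) := by
      rw [hVK, mul_pow, ← Real.rpow_natCast (N ^ (2 * η)) 8, ← Real.rpow_mul (by linarith)]
      norm_num
      left
      congr 1
      ring
    have e3 : 17280 * V ^ 8 / σ = 17280 * K ^ 8 / c₁ * (N ^ (16 * η) * (q : ℝ) ^ η) := by
      rw [e2, hσ, Real.rpow_neg (by linarith)]
      field_simp
    have e4 : N ^ (17 * η) = N ^ (16 * η) * N ^ η := by
      rw [← Real.rpow_add (by linarith)]; congr 1; ring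
    rw [e1, e3, e4]
    apply mul_le_mul_of_nonneg_left _ (by positivity)
    apply mul_le_mul_of_nonneg_left _ (by positivity)
    exact Real.rpow_le_rpow (by linarith) hqN hη.le
  refine h.trans ?_
  apply mul_le_mul_of_nonneg_right _ (by positivity)
  have e5 : (j.factorial : ℝ) * (4 * (4 * V / m)) / (m / (4 * V)) ^ j =
      j.factorial * 4 * (4 * V / m) ^ (j + 1) := by
    have e6 : m / (4 * V) = (4 * V / m)⁻¹ := by rw [inv_div]
    rw [e6, inv_pow, div_inv_eq_mul]
    ring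
  rw [e5]
  apply mul_le_mul_of_nonneg_left _ (by positivity)
  exact pow_le_pow_left₀ (by positivity) hQ _

lemma fL_analytic {χ : DirichletCharacter ℂ q} (hχ : χ ≠ 1) :
    AnalyticOnNhd ℂ (fL χ) {z | 1 < z.re} := by
  have hd : Differentiable ℂ χ.LFunction := DirichletCharacter.differentiable_LFunction hχ
  apply DifferentiableOn.analyticOnNhd _ (isOpen_lt continuous_const continuous_re)
  intro z hz
  have hz1 : 1 < z.re := hz
  apply DifferentiableAt.differentiableWithinAt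
  unfold fL
  apply DifferentiableAt.div
  · apply DifferentiableAt.div
    · exact ((hd.analyticAt z).deriv.differentiableAt).neg
    · exact hd z
    · exact DirichletCharacter.LFunction_ne_zero_of_one_le_re χ (Or.inl hχ) hz1.le
  · exact differentiableAt_id.pow 2
  · apply pow_ne_zero
    intro h0
    rw [h0] at hz1
    simp at hz1
    linarith

/-- Integration by parts. -/
lemma int_by_parts {f : ℂ → ℂ} (hf : AnalyticOnNhd ℂ f {z | 1 < z.re}) {c : ℝ} (hc : 1 < c)
    {y : ℝ} (hy : 0 < y) (k : ℕ)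
    (hint : ∀ j ≤ k, Integrable (fun ξ => iteratedDeriv j f (vert c ξ))) :
    ‖∫ ξ : ℝ, f (vert c ξ) * cexp (((2 * π * ξ * y : ℝ) : ℂ) * I)‖ =
      (1 / y ^ k) * ‖∫ ξ : ℝ, iteratedDeriv k f (vert c ξ) *
        cexp (((2 * π * ξ * y : ℝ) : ℂ) * I)‖ := by
  induction k with
  | zero => simp
  | succ k ih =>
    rw [ih (fun j hj => hint j (by omega))]
    have hmem : ∀ ξ, vert c ξ ∈ {z : ℂ | 1 < z.re} := by
      intro ξ
      show 1 < (vert c ξ).re
      rw [vert_re]; exact hc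
    have hD : ∀ ξ, HasDerivAt (fun ξ => iteratedDeriv k f (vert c ξ))
        (iteratedDeriv (k + 1) f (vert c ξ) * (2 * π * I)) ξ := by
      intro ξ
      have h1 : HasDerivAt (iteratedDeriv k f) (iteratedDeriv (k + 1) f (vert c ξ)) (vert c ξ) := by
        rw [iteratedDeriv_succ]
        have h2 : AnalyticAt ℂ (iteratedDeriv k f) (vert c ξ) := by
          rw [iteratedDeriv_eq_iterate]
          exact (hf _ (hmem ξ)).iterated_deriv k
        exact h2.differentiableAt.hasDerivAt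
      have h3 : HasDerivAt (vert c) (2 * π * I) ξ := by
        unfold vert
        have h4 : HasDerivAt (fun ξ : ℝ => ((2 * π * ξ : ℝ) : ℂ)) ((2 * π * 1 : ℝ) : ℂ) ξ :=
          ((hasDerivAt_id ξ).const_mul (2 * π)).ofReal_comp
        have h5 := (h4.mul_const I).const_add (c : ℂ)
        refine h5.congr_deriv ?_
        push_cast
        ring
      exact h1.comp ξ h3
    have hE : ∀ ξ : ℝ, HasDerivAt (fun ξ : ℝ => cexp (((2 * π * ξ * y : ℝ) : ℂ) * I))
        (cexp (((2 * π * ξ * y : ℝ) : ℂ) * I) * (2 * π * y * I)) ξ := by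
      intro ξ
      have h4 : HasDerivAt (fun ξ : ℝ => ((2 * π * ξ * y : ℝ) : ℂ)) ((2 * π * 1 * y : ℝ) : ℂ) ξ :=
        (((hasDerivAt_id ξ).const_mul (2 * π)).mul_const y).ofReal_comp
      have h5 := (h4.mul_const I).cexp
      refine h5.congr_deriv ?_
      push_cast
      ring
    have hEc : Continuous (fun ξ : ℝ => cexp (((2 * π * ξ * y : ℝ) : ℂ) * I)) := by fun_prop
    have hEn : ∀ ξ : ℝ, ‖cexp (((2 * π * ξ * y : ℝ) : ℂ) * I)‖ ≤ 1 := by
      intro ξ
      rw [Complex.norm_exp_ofReal_mul_I]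
    have hI : ∀ j ≤ k + 1, Integrable (fun ξ => iteratedDeriv j f (vert c ξ) *
        cexp (((2 * π * ξ * y : ℝ) : ℂ) * I)) := by
      intro j hj
      exact (hint j hj).mul_bdd hEc.aestronglyMeasurable (Eventually.of_forall hEn)
    have h0 := integral_eq_zero_of_hasDerivAt_of_integrable
      (f := fun ξ => iteratedDeriv k f (vert c ξ) * cexp (((2 * π * ξ * y : ℝ) : ℂ) * I))
      (f' := fun ξ => (2 * π * I) * (iteratedDeriv (k + 1) f (vert c ξ) *
        cexp (((2 * π * ξ * y : ℝ) : ℂ) * I)) + (2 * π * y * I) * (iteratedDeriv k f (vert c ξ) *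
        cexp (((2 * π * ξ * y : ℝ) : ℂ) * I)))
      (fun ξ => ((hD ξ).mul (hE ξ)).congr_deriv (by ring))
      (((hI (k + 1) le_rfl).const_mul _).add ((hI k (by omega)).const_mul _)) (hI k (by omega))
    rw [integral_add ((hI (k + 1) le_rfl).const_mul _) ((hI k (by omega)).const_mul _),
      integral_const_mul, integral_const_mul] at h0
    set A := ∫ ξ : ℝ, iteratedDeriv (k + 1) f (vert c ξ) * cexp (((2 * π * ξ * y : ℝ) : ℂ) * I)
    set B := ∫ ξ : ℝ, iteratedDeriv k f (vert c ξ) * cexp (((2 * π * ξ * y : ℝ) : ℂ) * I)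
    have h1 : A = -(y : ℂ) * B := by
      have h2 : (2 * π * I : ℂ) * (A + y * B) = 0 := by linear_combination h0
      have h3 : (2 * π * I : ℂ) ≠ 0 := by
        simp [Real.pi_ne_zero]
      have h4 := (mul_eq_zero.mp h2).resolve_left h3
      linear_combination h4
    rw [h1, norm_mul, norm_neg, Complex.norm_real, Real.norm_of_nonneg hy.le]
    field_simp
    ring

end Pool.Agent.H379R2.SW
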